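import Pool.Agent.H514R4.Stmts

/-! TaskC of project H514-NIL (volunteer helper440). -/

open scoped commutatorElement

namespace H514N.TC

variable {G : Type} [Group G]

/-- `Φ` is an `i`-cube along the list `l`. -/
def Cube (H : ℕ → Subgroup G) : ℕ → (List G → G) → List G → Prop
  | i, Φ, [] => Φ [] ∈ H i
  | i, Φ, (a :: l) => Cube H i Φ l ∧ Cube H (i + 1) (fun I => (Φ I)⁻¹ * Φ (a :: I)) l

/-- the product over all sublists -/
def K (κ : List G → G) (l : List G) : G := ((l.sublists').map κ).prod

theorem cube_mono {H : ℕ → Subgroup G} (hA : Antitone H) (l : List G) :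
    ∀ (i j : ℕ) (Φ : List G → G), j ≤ i → Cube H i Φ l → Cube H j Φ l := by
  induction l with
  | nil => intro i j Φ hij h; exact hA hij h
  | cons a l ih =>
    intro i j Φ hij h
    exact ⟨ih i j _ hij h.1, ih (i + 1) (j + 1) _ (by omega) h.2⟩

theorem cube_one {H : ℕ → Subgroup G} (l : List G) :
    ∀ i : ℕ, Cube H i (fun _ => 1) l := by
  induction l with
  | nil => intro i; exact (H i).one_mem
  | cons a l ih =>
    intro i
    refine ⟨ih i, ?_⟩
    have : (fun I : List G => ((fun _ => (1 : G)) I)⁻¹ * (fun _ => (1 : G)) (a :: I)) =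
        fun _ => (1 : G) := by funext I; simp
    rw [this]
    exact ih (i + 1)

theorem cube_const {H : ℕ → Subgroup G} (c : G) (i : ℕ) (hc : c ∈ H i) (l : List G) :
    Cube H i (fun _ => c) l := by
  induction l with
  | nil => exact hc
  | cons a l ih =>
    refine ⟨ih, ?_⟩
    have : (fun I : List G => ((fun _ => c) I)⁻¹ * (fun _ => c) (a :: I)) =
        fun _ => (1 : G) := by funext I; simp
    rw [this]
    exact cube_one l (i + 1)

/-- the three closure properties -/
theorem cube_ops {H : ℕ → Subgroup G} (hA : Antitone H) (hcomm : ∀ i j, ⁅H i, H j⁆ ≤ H (i + j))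
    (l : List G) :
    (∀ i (Φ Ψ : List G → G), Cube H i Φ l → Cube H i Ψ l → Cube H i (fun I => Φ I * Ψ I) l) ∧
    (∀ i (Φ : List G → G), Cube H i Φ l → Cube H i (fun I => (Φ I)⁻¹) l) ∧
    (∀ i j (Φ Ψ : List G → G), Cube H i Φ l → Cube H j Ψ l →
      Cube H (i + j) (fun I => ⁅Φ I, Ψ I⁆) l) := by
  induction l with
  | nil =>
    refine ⟨fun i Φ Ψ h1 h2 => (H i).mul_mem h1 h2, fun i Φ h => (H i).inv_mem h, ?_⟩
    intro i j Φ Ψ h1 h2
    exact hcomm i j (Subgroup.commutator_mem_commutator h1 h2)
  | cons a l ih =>
    obtain ⟨ihP, ihI, ihC⟩ := ih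
    have conj : ∀ i (Φ Ψ : List G → G), Cube H i Φ l → Cube H 0 Ψ l →
        Cube H i (fun I => Ψ I * Φ I * (Ψ I)⁻¹) l := by
      intro i Φ Ψ h1 h2
      have h3 := ihC 0 i Ψ Φ h2 h1
      rw [Nat.zero_add] at h3
      have h4 := ihP i _ _ h3 h1
      have : (fun I => ⁅Ψ I, Φ I⁆ * Φ I) = fun I => Ψ I * Φ I * (Ψ I)⁻¹ := by
        funext I
        rw [commutatorElement_def]
        group
      rw [this] at h4
      exact h4
    have z : ∀ i (Φ : List G → G), Cube H i Φ l → Cube H 0 Φ l :=
      fun i Φ h => cube_mono hA l i 0 Φ (Nat.zero_le _) h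
    refine ⟨?_, ?_, ?_⟩
    · intro i Φ Ψ h1 h2
      refine ⟨ihP i _ _ h1.1 h2.1, ?_⟩
      have h3 := conj (i + 1) _ (fun I => (Ψ I)⁻¹) h1.2 (z i _ (ihI i _ h2.1))
      have h4 := ihP (i + 1) _ _ h3 h2.2
      convert h4 using 1
      funext I
      group
    · intro i Φ h
      refine ⟨ihI i _ h.1, ?_⟩
      have h3 := conj (i + 1) _ Φ (ihI (i + 1) _ h.2) (z i _ h.1)
      convert h3 using 1
      funext I
      group
    · intro i j Φ Ψ h1 h2
      refine ⟨ihC i j _ _ h1.1 h2.1, ?_⟩
      have hx := h1.2
      have hy := h2.2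
      have hΨy : Cube H j (fun I => Ψ I * ((Ψ I)⁻¹ * Ψ (a :: I))) l :=
        ihP j _ _ h2.1 (cube_mono hA l (j + 1) j _ (by omega) hy)
      have h3 := ihC (i + 1) j _ _ hx hΨy
      have h4 := conj _ _ Φ h3 (z i _ h1.1)
      have h5 := conj _ _ (fun I => (⁅Φ I, Ψ I⁆)⁻¹) h4 (z _ _ (ihI _ _ (ihC i j _ _ h1.1 h2.1)))
      have h6 := ihC i (j + 1) _ _ h1.1 hy
      have h7 := conj _ _ Ψ h6 (z j _ h2.1)
      have e1 : i + 1 + j = i + j + 1 := by omega
      have e2 : i + (j + 1) = i + j + 1 := by omega
      rw [e1] at h5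
      rw [e2] at h7
      have h8 := ihP _ _ _ h5 h7
      convert h8 using 1
      funext I
      simp only [commutatorElement_def]
      group

theorem P_cube {H : ℕ → Subgroup G} (h0 : H 0 = ⊤) (h1 : H 1 = ⊤) (l : List G) :
    Cube H 0 (fun I => I.reverse.prod) l := by
  induction l with
  | nil =>
    show ([] : List G).reverse.prod ∈ H 0
    rw [h0]; trivial
  | cons a l ih =>
    refine ⟨ih, ?_⟩
    have : (fun I : List G => (I.reverse.prod)⁻¹ * (a :: I).reverse.prod) = fun _ => a := by
      funext I
      rw [List.reverse_cons, List.prod_append, List.prod_singleton]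
      group
    rw [this]
    exact cube_const a (0 + 1) (by rw [h1]; trivial) l

theorem K_nil (κ : List G → G) : K κ [] = κ [] := by
  simp [K]

theorem K_cons (κ : List G → G) (a : G) (l : List G) :
    K κ (a :: l) = K κ l * K (fun I => κ (a :: I)) l := by
  unfold K
  rw [List.sublists'_cons, List.map_append, List.prod_append, List.map_map]
  rfl

theorem K_cube {H : ℕ → Subgroup G} (l : List G) :
    ∀ (i : ℕ) (κ : List G → G), (∀ I, κ I ∈ H (i + I.length)) → Cube H i (K κ) l := by
  induction l with
  | nil =>
    intro i κ h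
    show K κ [] ∈ H i
    rw [K_nil]
    exact h []
  | cons a l ih =>
    intro i κ h
    refine ⟨ih i κ h, ?_⟩
    have : (fun I => (K κ I)⁻¹ * K κ (a :: I)) = K (fun I => κ (a :: I)) := by
      funext I
      rw [K_cons]
      group
    rw [this]
    refine ih (i + 1) _ fun I => ?_
    have := h (a :: I)
    rw [List.length_cons] at this
    rwa [show i + 1 + I.length = i + (I.length + 1) by omega]

theorem corner {H : ℕ → Subgroup G} (l : List G) :
    ∀ (i : ℕ) (Φ : List G → G), Cube H i Φ l →
      (∀ I, I.Sublist l → I.length < l.length → Φ I = 1) → Φ l ∈ H (i + l.length) := by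
  induction l with
  | nil => intro i Φ h _; exact h
  | cons a l ih =>
    intro i Φ h h1
    have h2 := ih (i + 1) _ h.2 ?_
    · rw [h1 l (List.sublist_cons_self a l) (by simp), inv_one, one_mul] at h2
      rw [List.length_cons]
      rwa [show i + (l.length + 1) = i + 1 + l.length by omega]
    · intro I hI hl
      show (Φ I)⁻¹ * Φ (a :: I) = 1
      rw [h1 I (hI.trans (List.sublist_cons_self a l)) (by rw [List.length_cons]; omega),
        h1 (a :: I) (hI.cons_cons a) (by simp only [List.length_cons]; omega)]
      simp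

theorem split (l : List G) : ∃ L : List (List G), l.sublists' = L ++ [l] ∧
    ∀ I ∈ L, I.length < l.length := by
  induction l with
  | nil => exact ⟨[], by simp, by simp⟩
  | cons a l ih =>
    obtain ⟨L, h1, h2⟩ := ih
    refine ⟨L ++ [l] ++ L.map (List.cons a), ?_, ?_⟩
    · rw [List.sublists'_cons, h1, List.map_append]
      simp
    · intro I hI
      rw [List.mem_append, List.mem_append, List.mem_map] at hI
      rcases hI with (hI | hI) | ⟨J, hJ, rfl⟩
      · have := h2 I hI
        rw [List.length_cons]; omega
      · rw [List.mem_singleton] at hI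
        rw [hI, List.length_cons]; omega
      · have := h2 J hJ
        rw [List.length_cons, List.length_cons]; omega

theorem K_congr (κ κ' : List G → G) (l : List G) (h : ∀ I : List G, I.length ≤ l.length →
    κ I = κ' I) : K κ l = K κ' l := by
  unfold K
  congr 1
  refine List.map_congr_left fun I hI => h I ?_
  exact (List.mem_sublists'.1 hI).length_le

/-- one step of the construction -/
noncomputable def step (pick : ℕ → G → G) (l : List G) (g : List G → G × G) : G × G :=
  (pick l.length ((K (fun I => (g I).1) l)⁻¹ * l.reverse.prod * K (fun I => (g I).2) l),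
    ((K (fun I => (g I).1) l)⁻¹ * l.reverse.prod * K (fun I => (g I).2) l)⁻¹ *
      pick l.length ((K (fun I => (g I).1) l)⁻¹ * l.reverse.prod * K (fun I => (g I).2) l))

/-- truncation -/
def trunc (l : List G) (g : List G → G × G) (I : List G) : G × G :=
  if I.length < l.length then g I else (1, 1)

open Classical in
theorem exists_fix (S : List G → (List G → G × G) → G × G) :
    ∃ g : List G → G × G, ∀ l, g l = S l (trunc l g) := by
  refine ⟨WellFounded.fix (measure List.length).wf (fun l rec => S l (fun I =>
    if h : I.length < l.length then rec I h else (1, 1))), fun l => ?_⟩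
  rw [WellFounded.fix_eq]
  refine congrArg (S l) (funext fun I => ?_)
  unfold trunc
  by_cases h : I.length < l.length
  · rw [dif_pos h, if_pos h]
  · rw [dif_neg h, if_neg h]

end H514N.TC

namespace H514N

open TC

theorem taskC : TaskC := by
  intro G _ H Γ C h0 h1 hA hcomm hCH hC
  choose! pick hpick using hC
  obtain ⟨g, hg⟩ := exists_fix (step pick)
  have hnorm := cube_ops hA hcomm
  have key : ∀ n : ℕ, ∀ l : List G, l.length = n →
      ((g l).1 ∈ C l.length ∧ (g l).2 ∈ Γ ∧ (g l).2 ∈ H l.length ∧
        l.reverse.prod = K (fun I => (g I).1) l * (K (fun I => (g I).2) l)⁻¹) := by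
    intro n
    induction n using Nat.strong_induction_on with
    | _ n ih =>
      intro l hl
      have ih' : ∀ I : List G, I.length < l.length → _ := fun I hI => ih I.length (hl ▸ hI) I rfl
      set κ' : List G → G := fun I => (trunc l g I).1 with hκ'
      set δ' : List G → G := fun I => (trunc l g I).2 with hδ'
      have hlt : ∀ I : List G, I.length < l.length → κ' I = (g I).1 ∧ δ' I = (g I).2 := by
        intro I hI
        simp only [hκ', hδ', trunc, if_pos hI, and_self]
      have hge : ∀ I : List G, ¬ I.length < l.length → κ' I = 1 ∧ δ' I = 1 := by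
        intro I hI
        simp only [hκ', hδ', trunc, if_neg hI, and_self]
      have hκH : ∀ I, κ' I ∈ H (0 + I.length) := by
        intro I
        rw [Nat.zero_add]
        by_cases hI : I.length < l.length
        · rw [(hlt I hI).1]; exact hCH _ (ih' I hI).1
        · rw [(hge I hI).1]; exact (H _).one_mem
      have hδH : ∀ I, δ' I ∈ H (0 + I.length) := by
        intro I
        rw [Nat.zero_add]
        by_cases hI : I.length < l.length
        · rw [(hlt I hI).2]; exact (ih' I hI).2.2.1
        · rw [(hge I hI).2]; exact (H _).one_mem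
      have hW : Cube H 0 (fun I => (K κ' I)⁻¹ * I.reverse.prod * K δ' I) l :=
        (hnorm l).1 0 _ _ ((hnorm l).1 0 _ _ ((hnorm l).2.1 0 _ (K_cube l 0 κ' hκH))
          (P_cube h0 h1 l)) (K_cube l 0 δ' hδH)
      have hw := corner l 0 _ hW ?_
      · rw [Nat.zero_add] at hw
        set w : G := (K κ' l)⁻¹ * l.reverse.prod * K δ' l with hwdef
        have hgl : g l = (pick l.length w, w⁻¹ * pick l.length w) := by
          rw [hg l]; rfl
        obtain ⟨hp1, hp2⟩ := hpick l.length w hw
        have e1 : (g l).1 = pick l.length w := by rw [hgl]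
        have e2 : (g l).2 = w⁻¹ * pick l.length w := by rw [hgl]
        obtain ⟨L, hL1, hL2⟩ := split l
        have kk : ∀ κ : List G → G, K κ l = (L.map κ).prod * κ l := by
          intro κ
          unfold K
          rw [hL1, List.map_append, List.prod_append]
          simp
        refine ⟨by rw [e1]; exact hp1, ?_, ?_, ?_⟩
        · rw [e2]
          have := Γ.inv_mem hp2
          simpa [mul_inv_rev] using this
        · rw [e2]
          exact (H _).mul_mem ((H _).inv_mem hw) (hCH _ hp1)
        · have a1 : (L.map κ').prod = (L.map fun I => (g I).1).prod := by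
            congr 1
            exact List.map_congr_left fun I hI => (hlt I (hL2 I hI)).1
          have a2 : (L.map δ').prod = (L.map fun I => (g I).2).prod := by
            congr 1
            exact List.map_congr_left fun I hI => (hlt I (hL2 I hI)).2
          have b1 : K κ' l = (L.map fun I => (g I).1).prod := by
            rw [kk, a1, (hge l (lt_irrefl _)).1, mul_one]
          have b2 : K δ' l = (L.map fun I => (g I).2).prod := by
            rw [kk, a2, (hge l (lt_irrefl _)).2, mul_one]
          rw [kk (fun I => (g I).1), kk (fun I => (g I).2)]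
          show l.reverse.prod = (L.map fun I => (g I).1).prod * (g l).1 *
            ((L.map fun I => (g I).2).prod * (g l).2)⁻¹
          rw [← b1, ← b2, e1, e2, hwdef]
          group
      · intro I hI hlI
        show (K κ' I)⁻¹ * I.reverse.prod * K δ' I = 1
        have c1 : K κ' I = K (fun I => (g I).1) I :=
          K_congr _ _ I fun J hJ => (hlt J (lt_of_le_of_lt hJ hlI)).1
        have c2 : K δ' I = K (fun I => (g I).2) I :=
          K_congr _ _ I fun J hJ => (hlt J (lt_of_le_of_lt hJ hlI)).2
        rw [c1, c2, (ih' I hlI).2.2.2]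
        group
  refine ⟨fun l => (g l).1, fun l => (key _ l rfl).1, fun l => ?_⟩
  refine ⟨(K (fun I => (g I).2) l)⁻¹, Γ.inv_mem ?_, (key _ l rfl).2.2.2⟩
  unfold K
  refine Γ.list_prod_mem fun x hx => ?_
  rw [List.mem_map] at hx
  obtain ⟨I, _, rfl⟩ := hx
  exact (key _ I rfl).2.1

end H514N
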